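import Pool.Agent.Y957.VK.Step3

/-!
# Orbits sampled along integer parts of polynomials, for almost every polynomial

Let `Y` be a locally compact second countable Hausdorff space (for example `G / Γ`), `μ` a probability
measure on `Y`, and let `y m`, `m` in `ℤ` (for example `y m = u(m) x`), be equidistributed with
respect to `μ` in both directions of time.

(1) For every nonconstant real polynomial `P` and almost every real number `a` the sequence
`y [a P(n)]`, `n = 1, 2, …`, is equidistributed with respect to `μ`.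

(2) For every `d ≥ 1` and almost every `(c 0, …, c d)` in `ℝ ^ (d + 1)` the sequence
`y [c 0 + c 1 n + … + c d n ^ d]`, `n = 1, 2, …`, is equidistributed with respect to `μ`.
-/

set_option autoImplicit false

namespace Pool.Agent.Results.MP_a6827b_an.AlmostEveryPolynomial

open Filter Topology MeasureTheory BoundedContinuousFunction

/-- `z 1, z 2, …` is equidistributed with respect to `μ` -/
def Equidistributed {Y : Type} [TopologicalSpace Y] [MeasurableSpace Y] (μ : Measure Y) (z : ℕ → Y) : Prop :=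
  ∀ f : Y → ℂ, Continuous f → HasCompactSupport f →
    Tendsto (fun N : ℕ => (1 / (N : ℂ)) * ∑ n ∈ Finset.Icc 1 N, f (z n)) atTop (𝓝 (∫ x, f x ∂μ))

theorem equi_of_dense {Y : Type} [TopologicalSpace Y] [T2Space Y] [LocallyCompactSpace Y]
    [SecondCountableTopology Y] [MeasurableSpace Y] [BorelSpace Y] (μ : Measure Y) [IsProbabilityMeasure μ]
    (z : ℕ → Y) (D : Set (Y →ᵇ ℂ)) (hSD : {f : Y →ᵇ ℂ | HasCompactSupport f} ⊆ closure D)
    (hD : ∀ g ∈ D, Tendsto (fun N : ℕ => (1 / (N : ℂ)) * ∑ n ∈ Finset.Icc 1 N, g (z n)) atTop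
      (𝓝 (∫ x, g x ∂μ))) : Equidistributed μ z := by
  intro f hf hfs
  obtain ⟨C, hC⟩ := hfs.exists_bound_of_continuous hf
  obtain ⟨F, hF⟩ : ∃ F : Y →ᵇ ℂ, F = BoundedContinuousFunction.ofNormedAddCommGroup f hf C hC := ⟨_, rfl⟩
  have hFf : ∀ x, F x = f x := fun x => by rw [hF]; rfl
  have hFS : F ∈ {f : Y →ᵇ ℂ | HasCompactSupport f} := by
    have : (F : Y → ℂ) = f := funext hFf
    change HasCompactSupport (F : Y → ℂ)
    rw [this]
    exact hfs
  rw [Metric.tendsto_atTop]
  intro ε hε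
  obtain ⟨g, hg, hfg⟩ := Metric.mem_closure_iff.1 (hSD hFS) (ε / 4) (by positivity)
  rw [dist_eq_norm] at hfg
  obtain ⟨N0, hN0⟩ := (Metric.tendsto_atTop.1 (hD g hg)) (ε / 4) (by positivity)
  refine ⟨max N0 1, fun N hN => ?_⟩
  have h2 := hN0 N ((le_max_left _ _).trans hN)
  have hN1 : (0 : ℝ) < N := by exact_mod_cast (le_max_right _ _).trans hN
  rw [dist_eq_norm] at h2 ⊢
  have h3 : ∀ x, ‖f x - g x‖ ≤ ε / 4 := fun x => by
    have h4 : ‖(F - g) x‖ ≤ ‖F - g‖ := (F - g).norm_coe_le_norm x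
    rw [BoundedContinuousFunction.coe_sub, Pi.sub_apply, hFf] at h4
    exact h4.trans hfg.le
  have hfi : Integrable f μ := by
    have : (F : Y → ℂ) = f := funext hFf
    rw [← this]
    exact F.integrable μ
  have e1 : (1 / (N : ℂ)) * ∑ n ∈ Finset.Icc 1 N, f (z n) - ∫ x, f x ∂μ =
      ((1 / (N : ℂ)) * ∑ n ∈ Finset.Icc 1 N, g (z n) - ∫ x, g x ∂μ) +
        ((1 / (N : ℂ)) * ∑ n ∈ Finset.Icc 1 N, (f (z n) - g (z n)) - ∫ x, (f x - g x) ∂μ) := by
    rw [integral_sub hfi (g.integrable μ), Finset.sum_sub_distrib]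
    ring
  have h5 : ‖(1 / (N : ℂ)) * ∑ n ∈ Finset.Icc 1 N, (f (z n) - g (z n))‖ ≤ ε / 4 := by
    rw [norm_mul, norm_div, norm_one, Complex.norm_natCast]
    have h6 : ‖∑ n ∈ Finset.Icc 1 N, (f (z n) - g (z n))‖ ≤ N * (ε / 4) := by
      refine (norm_sum_le _ _).trans ((Finset.sum_le_sum fun n _ => h3 _).trans ?_)
      simp
    calc 1 / (N : ℝ) * ‖∑ n ∈ Finset.Icc 1 N, (f (z n) - g (z n))‖ ≤ 1 / (N : ℝ) * (N * (ε / 4)) := by gcongr
      _ = ε / 4 := by field_simp
  have h6 : ‖∫ x, (f x - g x) ∂μ‖ ≤ ε / 4 := by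
    have := norm_integral_le_of_norm_le_const (μ := μ) (f := fun x => f x - g x) (ae_of_all _ h3)
    simpa using this
  rw [e1]
  have h7 := norm_add_le ((1 / (N : ℂ)) * ∑ n ∈ Finset.Icc 1 N, g (z n) - ∫ x, g x ∂μ)
    ((1 / (N : ℂ)) * ∑ n ∈ Finset.Icc 1 N, (f (z n) - g (z n)) - ∫ x, (f x - g x) ∂μ)
  have h8 := norm_sub_le ((1 / (N : ℂ)) * ∑ n ∈ Finset.Icc 1 N, (f (z n) - g (z n)))
    (∫ x, (f x - g x) ∂μ)
  linarith

/-- Sampling along the integer parts of almost every polynomial -/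
theorem result {Y : Type} [TopologicalSpace Y] [T2Space Y] [LocallyCompactSpace Y]
    [SecondCountableTopology Y] [MeasurableSpace Y] [BorelSpace Y] (μ : Measure Y) [IsProbabilityMeasure μ]
    (y : ℤ → Y) (hpos : Equidistributed μ fun m : ℕ => y m)
    (hneg : Equidistributed μ fun m : ℕ => y (-m)) :
    (∀ P : Polynomial ℝ, 0 < P.natDegree →
      ∀ᵐ a : ℝ, Equidistributed μ fun n : ℕ => y ⌊a * P.eval (n : ℝ)⌋) ∧
    ∀ d : ℕ, 1 ≤ d →
      ∀ᵐ c : Fin (d + 1) → ℝ, Equidistributed μ fun n : ℕ => y ⌊∑ i, c i * (n : ℝ) ^ (i : ℕ)⌋ := by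
  obtain ⟨D, hDS, hDc, hSD⟩ :
      ∃ D ⊆ {f : Y →ᵇ ℂ | HasCompactSupport f}, D.Countable ∧ {f : Y →ᵇ ℂ | HasCompactSupport f} ⊆ closure D := by
    obtain ⟨D, hDS, hD, hSD⟩ := (Pool.Agent.Y957.VK.sep_cs Y).exists_countable_dense_subset
    exact ⟨D, hDS, hD, hSD⟩
  have key : ∀ P : Polynomial ℝ, 0 < P.natDegree → ∀ g ∈ D, ∀ᵐ a : ℝ,
      Tendsto (fun N : ℕ => (1 / (N : ℂ)) * ∑ n ∈ Finset.Icc 1 N, g (y ⌊a * P.eval (n : ℝ)⌋)) atTop
        (𝓝 (∫ x, g x ∂μ)) := fun P hP g hg =>
    Pool.Agent.Y957.St.two P hP (fun m => g (y m)) ‖g‖ (fun m => g.norm_coe_le_norm _) _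
      (hpos g g.continuous (hDS hg)) (hneg g g.continuous (hDS hg))
  refine ⟨fun P hP => ?_, fun d hd => ?_⟩
  · have h1 : ∀ᵐ a : ℝ, ∀ g ∈ D, Tendsto (fun N : ℕ => (1 / (N : ℂ)) *
        ∑ n ∈ Finset.Icc 1 N, g (y ⌊a * P.eval (n : ℝ)⌋)) atTop (𝓝 (∫ x, g x ∂μ)) := by
      rw [ae_ball_iff hDc]
      exact fun g hg => key P hP g hg
    filter_upwards [h1] with a ha
    exact equi_of_dense μ _ D hSD ha
  · -- the leading coefficient
    have h0 : ∀ᵐ c : Fin (d + 1) → ℝ, c (Fin.last d) ≠ 0 := by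
      have h1 := Measure.addHaar_submodule (volume : Measure (Fin (d + 1) → ℝ))
        (LinearMap.ker (LinearMap.proj (R := ℝ) (φ := fun _ : Fin (d + 1) => ℝ) (Fin.last d))) (by
          intro hcon
          have h2 : (fun _ => (1 : ℝ)) ∈ LinearMap.ker
              (LinearMap.proj (R := ℝ) (φ := fun _ : Fin (d + 1) => ℝ) (Fin.last d)) := by
            rw [hcon]
            exact Submodule.mem_top
          rw [LinearMap.mem_ker] at h2
          simp at h2)
      rw [ae_iff]
      convert h1 using 2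
      ext c
      simp
    have h1 : ∀ᵐ c : Fin (d + 1) → ℝ, ∀ g ∈ D, c (Fin.last d) ≠ 0 → Tendsto (fun N : ℕ => (1 / (N : ℂ)) *
        ∑ n ∈ Finset.Icc 1 N, g (y ⌊∑ i, c i * (n : ℝ) ^ (i : ℕ)⌋)) atTop (𝓝 (∫ x, g x ∂μ)) := by
      rw [ae_ball_iff hDc]
      intro g hg
      have hm : MeasurableSet {c : Fin (d + 1) → ℝ | Tendsto (fun N : ℕ => (1 / (N : ℂ)) *
          ∑ n ∈ Finset.Icc 1 N, g (y ⌊∑ i, c i * (n : ℝ) ^ (i : ℕ)⌋)) atTop (𝓝 (∫ x, g x ∂μ))} := by
        refine measurableSet_tendsto _ fun N => ?_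
        refine (Finset.measurable_sum _ fun n _ => ?_).const_mul _
        have h2 : Measurable fun m : ℤ => g (y m) := measurable_of_countable _
        have h3 : Measurable fun c : Fin (d + 1) → ℝ => ∑ i, c i * (n : ℝ) ^ (i : ℕ) :=
          Finset.measurable_sum _ fun i _ => (measurable_pi_apply i).mul_const _
        exact h2.comp (Int.measurable_floor.comp h3)
      have hm2 : MeasurableSet {c : Fin (d + 1) → ℝ | c (Fin.last d) ≠ 0} :=
        (measurableSet_eq_fun (measurable_pi_apply _) measurable_const).compl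
      have h2 := Pool.Agent.Y957.VK.null_of_lines (volume : Measure (Fin (d + 1) → ℝ))
        ({c : Fin (d + 1) → ℝ | c (Fin.last d) ≠ 0} ∩ {c : Fin (d + 1) → ℝ | Tendsto (fun N : ℕ => (1 / (N : ℂ)) *
          ∑ n ∈ Finset.Icc 1 N, g (y ⌊∑ i, c i * (n : ℝ) ^ (i : ℕ)⌋)) atTop (𝓝 (∫ x, g x ∂μ))}ᶜ)
        (hm2.inter hm.compl) (fun v => by
          by_cases hv : v (Fin.last d) = 0
          · refine ae_of_all _ fun t ht => ht.1 ?_
            rw [Pi.smul_apply, hv, smul_zero]
          · obtain ⟨P, hP⟩ : ∃ P : Polynomial ℝ, P = ∑ i : Fin (d + 1), Polynomial.monomial (i : ℕ) (v i) :=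
              ⟨_, rfl⟩
            have hPd : 0 < P.natDegree := by
              refine lt_of_lt_of_le hd (Polynomial.le_natDegree_of_ne_zero ?_)
              rw [hP, Polynomial.finset_sum_coeff]
              rw [Finset.sum_eq_single (Fin.last d)]
              · rw [Fin.val_last, Polynomial.coeff_monomial_same]
                exact hv
              · intro i _ hi
                rw [Polynomial.coeff_monomial, if_neg]
                intro hcon
                apply hi
                ext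
                rw [Fin.val_last]
                exact hcon
              · intro h
                exact absurd (Finset.mem_univ _) h
            have hPe : ∀ x : ℝ, P.eval x = ∑ i, v i * x ^ (i : ℕ) := fun x => by
              rw [hP, Polynomial.eval_finset_sum]
              exact Finset.sum_congr rfl fun i _ => Polynomial.eval_monomial
            filter_upwards [key P hPd g hg] with t ht hmem
            refine hmem.2 ?_
            refine ht.congr fun N => ?_
            congr 1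
            refine Finset.sum_congr rfl fun n _ => ?_
            have e : t * P.eval (n : ℝ) = ∑ i, (t • v) i * (n : ℝ) ^ (i : ℕ) := by
              rw [hPe, Finset.mul_sum]
              refine Finset.sum_congr rfl fun i _ => ?_
              rw [Pi.smul_apply, smul_eq_mul, mul_assoc]
            rw [e])
      have h3 : ∀ᵐ c : Fin (d + 1) → ℝ, c ∉ ({c : Fin (d + 1) → ℝ | c (Fin.last d) ≠ 0} ∩
          {c : Fin (d + 1) → ℝ | Tendsto (fun N : ℕ => (1 / (N : ℂ)) *
          ∑ n ∈ Finset.Icc 1 N, g (y ⌊∑ i, c i * (n : ℝ) ^ (i : ℕ)⌋)) atTop (𝓝 (∫ x, g x ∂μ))}ᶜ) :=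
        measure_eq_zero_iff_ae_notMem.1 h2
      filter_upwards [h3] with c hc hc0
      by_contra hcon
      exact hc ⟨hc0, hcon⟩
    filter_upwards [h0, h1] with c c0 c1
    exact equi_of_dense μ _ D hSD fun g hg => c1 g hg c0

end Pool.Agent.Results.MP_a6827b_an.AlmostEveryPolynomial
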